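import Pool.Agent.Lib.MP_4318ff_ag.Spec.LR

/-!
# MP_4318ff_ag, part L, module ArcLin: rigid configurations are linearly rigid

`Config.ArcRigid`: every formal family of lines which keeps the incidences is projectively trivial.
-/

set_option autoImplicit false

namespace Pool.Agent.Lib.MP_4318ff_ag

open scoped LinearAlgebra.Projectivization

/-- Rigidity: every formal family `L i` of lines with `L i ≡ ℓ i`, for which the lines through `P` stay concurrent for every
`P ∈ C.M`, comes from a formal projective transformation `g` and from a rescaling of the forms. -/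
def Config.ArcRigid {k : Type} [Field k] {r : ℕ} (C : Config k r) : Prop :=
  ∀ L : Fin r → Fin 3 → PowerSeries k, (∀ i a, PowerSeries.constantCoeff (L i a) = C.ℓ i a) →
    (∀ P ∈ C.M, ∀ i ∈ C.through P, ∀ j ∈ C.through P, ∀ m ∈ C.through P,
      Matrix.det (Matrix.of ![L i, L j, L m]) = 0) →
    ∃ (g : Matrix (Fin 3) (Fin 3) (PowerSeries k)) (s : Fin r → PowerSeries k), IsUnit g.det ∧ (∀ i, IsUnit (s i)) ∧
      ∀ i, L i = s i • Matrix.vecMul (fun a => PowerSeries.C (C.ℓ i a)) g

private theorem ArcLin_c0 {k : Type} [Field k] (f g : PowerSeries k) :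
    PowerSeries.coeff 0 (f * g) = PowerSeries.coeff 0 f * PowerSeries.coeff 0 g := by
  simp

private theorem ArcLin_c1 {k : Type} [Field k] (f g : PowerSeries k) :
    PowerSeries.coeff 1 (f * g) =
      PowerSeries.coeff 0 f * PowerSeries.coeff 1 g + PowerSeries.coeff 1 f * PowerSeries.coeff 0 g := by
  rw [PowerSeries.coeff_mul, Finset.Nat.antidiagonal_succ]
  simp

/-- Rigid configurations are linearly rigid. -/
theorem tArcLin (k : Type) [Field k] (r : ℕ) (C : Config k r) (hC : C.ArcRigid) : C.LinRigid := by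
  intro β hβ
  obtain ⟨g, s, hg, hs, hL⟩ := hC (fun i a => PowerSeries.C (C.ℓ i a) + PowerSeries.X * PowerSeries.C (β i a))
    (by
      intro i a
      simp) (by
      intro P hP i hi j hj m hm
      obtain ⟨w, hw⟩ := hβ P hP
      refine Matrix.exists_mulVec_eq_zero_iff.1
        ⟨fun a => PowerSeries.C (P.rep a) + PowerSeries.X * PowerSeries.C (w a), ?_, ?_⟩
      · intro h0
        apply P.rep_nonzero
        funext a
        have h5 := congrArg (PowerSeries.coeff 0) (congrFun h0 a)
        simpa using h5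
      · have key : ∀ q ∈ C.through P, (fun a => PowerSeries.C (C.ℓ q a) + PowerSeries.X * PowerSeries.C (β q a)) ⬝ᵥ
            (fun a => PowerSeries.C (P.rep a) + PowerSeries.X * PowerSeries.C (w a)) = 0 := by
          intro q hq
          have e1 : C.ℓ q ⬝ᵥ P.rep = 0 := hq
          obtain ⟨e2, e3⟩ := hw q hq
          have e4 : (fun a => PowerSeries.C (C.ℓ q a) + PowerSeries.X * PowerSeries.C (β q a)) ⬝ᵥ
              (fun a => PowerSeries.C (P.rep a) + PowerSeries.X * PowerSeries.C (w a)) =
              PowerSeries.C (C.ℓ q ⬝ᵥ P.rep) +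
                PowerSeries.X * PowerSeries.C (β q ⬝ᵥ P.rep + C.ℓ q ⬝ᵥ w) +
                PowerSeries.X ^ 2 * PowerSeries.C (β q ⬝ᵥ w) := by
            simp only [dotProduct, Fin.sum_univ_three, map_add, map_mul]
            ring
          rw [e4, e1, e2, e3]
          simp
        funext i'
        fin_cases i'
        · exact key i hi
        · exact key j hj
        · exact key m hm)
  -- the coefficients
  set g0 : Matrix (Fin 3) (Fin 3) k := Matrix.of fun a b => PowerSeries.coeff 0 (g a b) with hg0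
  set g1 : Matrix (Fin 3) (Fin 3) k := Matrix.of fun a b => PowerSeries.coeff 1 (g a b) with hg1
  set s0 : Fin r → k := fun i => PowerSeries.coeff 0 (s i) with hs0
  set s1 : Fin r → k := fun i => PowerSeries.coeff 1 (s i) with hs1
  have hv0 : ∀ i b, PowerSeries.coeff 0 (Matrix.vecMul (fun a => PowerSeries.C (C.ℓ i a)) g b) =
      Matrix.vecMul (C.ℓ i) g0 b := by
    intro i b
    rw [Matrix.vecMul, Matrix.vecMul, dotProduct, dotProduct, map_sum]
    refine Finset.sum_congr rfl fun a _ => ?_
    rw [ArcLin_c0, hg0]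
    simp
  have hv1 : ∀ i b, PowerSeries.coeff 1 (Matrix.vecMul (fun a => PowerSeries.C (C.ℓ i a)) g b) =
      Matrix.vecMul (C.ℓ i) g1 b := by
    intro i b
    rw [Matrix.vecMul, Matrix.vecMul, dotProduct, dotProduct, map_sum]
    refine Finset.sum_congr rfl fun a _ => ?_
    rw [PowerSeries.coeff_C_mul]
    rfl
  have h0 : ∀ i, C.ℓ i = s0 i • Matrix.vecMul (C.ℓ i) g0 := by
    intro i
    funext b
    have h5 := congrArg (PowerSeries.coeff 0) (congrFun (hL i) b)
    rw [Pi.smul_apply, smul_eq_mul, ArcLin_c0, hv0] at h5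
    rw [Pi.smul_apply, smul_eq_mul]
    refine Eq.trans ?_ h5
    simp
  have h1 : ∀ i, β i = s0 i • Matrix.vecMul (C.ℓ i) g1 + s1 i • Matrix.vecMul (C.ℓ i) g0 := by
    intro i
    funext b
    have h5 := congrArg (PowerSeries.coeff 1) (congrFun (hL i) b)
    rw [Pi.smul_apply, smul_eq_mul, ArcLin_c1, hv0, hv1] at h5
    rw [Pi.add_apply, Pi.smul_apply, Pi.smul_apply, smul_eq_mul, smul_eq_mul]
    refine Eq.trans ?_ h5
    rw [map_add, PowerSeries.coeff_C, if_neg one_ne_zero, zero_add, ArcLin_c1]
    simp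
  have hs0' : ∀ i, s0 i ≠ 0 := by
    intro i
    have h5 := (PowerSeries.isUnit_iff_constantCoeff).1 (hs i)
    have h6 : s0 i = PowerSeries.constantCoeff (s i) := by
      rw [hs0]
      simp
    rw [h6]
    exact h5.ne_zero
  have hdet : IsUnit g0.det := by
    have h5 : g0 = (PowerSeries.constantCoeff (R := k)).mapMatrix g := by
      ext a b
      simp [hg0]
    rw [h5, ← RingHom.map_det]
    exact hg.map _
  refine ⟨g0⁻¹ * g1, fun i => s1 i * (s0 i)⁻¹, fun i => ?_⟩
  have h5 : Matrix.vecMul (C.ℓ i) g0 = (s0 i)⁻¹ • C.ℓ i := by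
    conv_rhs => rw [h0 i]
    rw [smul_smul, inv_mul_cancel₀ (hs0' i), one_smul]
  have h6 : Matrix.vecMul (C.ℓ i) g0⁻¹ = s0 i • C.ℓ i := by
    conv_lhs => rw [h0 i]
    rw [Matrix.smul_vecMul, Matrix.vecMul_vecMul, Matrix.mul_nonsing_inv _ hdet, Matrix.vecMul_one]
  rw [h1 i, h5, ← Matrix.vecMul_vecMul, h6, Matrix.smul_vecMul, smul_smul]

end Pool.Agent.Lib.MP_4318ff_ag
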