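import Pool.Agent.Lib.MP_4318ff_ag.Spec.LR
import Pool.Agent.Lib.MP_4318ff_ag.A.G1

/-!
# MP_4318ff_ag, module L/ConstK (helper43)
-/

set_option autoImplicit false

namespace Pool.Agent.Lib.MP_4318ff_ag

open scoped LinearAlgebra.Projectivization

section constK

variable {k : Type} [Field k] {r : ℕ} (C : Config k r) {K : Type} [Field K] [Algebra (F k) K] [Algebra k K]
  [IsScalarTower k (F k) K]

/-- An element of `K` which is regular at all curves of the plane is constant. -/
theorem gr_const (hU : UnifStmt) (hC : CurveStmt) (hConst : ConstStmt) [IsAlgClosed k] [FiniteDimensional (F k) K]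
    (y : K) (hy : ∀ O : Subalgebra k (F k), IsCurve O → y ∈ ic K O) : ∃ c : k, y = algebraMap k K c := by
  have h1 : y ∈ ic K (⊥ : Subalgebra k (F k)) := by
    refine ic_of_forall K (ι := {O : Subalgebra k (F k) // IsCurve O}) ⊥ (fun O => O.1) ?_ ?_ (fun O => hy O.1 O.2)
    · intro O f hf
      obtain ⟨π, hπ⟩ := (hC k O.1 O.2).1
      exact (hU k O.1 π hπ).2.1 f hf
    · intro f hf
      obtain ⟨t, rfl⟩ := hConst k f (fun O hO => hf ⟨O, hO⟩)
      exact (⊥ : Subalgebra k (F k)).algebraMap_mem t
  have h2 : IsIntegral (⊥ : Subalgebra k (F k)) y := h1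
  have h3 : IsIntegral k y := by
    haveI : Algebra.IsIntegral k (⊥ : Subalgebra k (F k)) := by
      constructor
      rintro ⟨x, hx⟩
      obtain ⟨c, rfl⟩ := Algebra.mem_bot.1 hx
      exact isIntegral_algebraMap (R := k) (A := (⊥ : Subalgebra k (F k))) (x := c)
    haveI : IsScalarTower k (⊥ : Subalgebra k (F k)) K := IsScalarTower.of_algebraMap_eq (fun c => by
      rw [IsScalarTower.algebraMap_apply k (F k) K]; rfl)
    exact isIntegral_trans y h2
  obtain ⟨c, hc⟩ := minpoly.mem_range_of_degree_eq_one k y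
    (IsAlgClosed.degree_eq_one_of_irreducible k (minpoly.irreducible h3))
  exact ⟨c, hc.symm⟩


end constK

theorem tConstK : UnifStmt → CurveStmt → ConstStmt → ConstKStmt := by
  intro hU hC hConst k _ _ _ K _ _ _ _ _ y hy
  exact gr_const hU hC hConst y hy

end Pool.Agent.Lib.MP_4318ff_ag
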