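import Pool.Agent.Lib.MP_4318ff_ag.Spec.LR

/-!
# MP_4318ff_ag, block LA, module Cor: the core of the linear algebra
-/

set_option autoImplicit false

namespace Pool.Agent.Lib.MP_4318ff_ag

open scoped LinearAlgebra.Projectivization

private lemma CorB_vec {k : Type} [Field k] (l η φ : Fin 3 → k) :
    Matrix.vecMul l (Matrix.of fun b a => η b * φ a) = (l ⬝ᵥ η) • φ := by
  funext a
  rw [Pi.smul_apply, smul_eq_mul, Matrix.vecMul, dotProduct, dotProduct, Finset.sum_mul]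
  refine Finset.sum_congr rfl fun b _ => ?_
  rw [Matrix.of_apply]
  ring

theorem tCorB (h1 : DuaStmt) : CorBStmt := by
  intro k _ r C P₀ S x hH hH0
  -- coordinates
  have hA : ∀ y : Fin 3 → k, ∃ (v : Pt k → Fin 3 → k) (s : Fin r → k),
      ∀ P ∈ S, ∀ i ∈ C.through P, x P i ⬝ᵥ y = C.ℓ i ⬝ᵥ v P + s i := by
    intro y
    obtain ⟨v, s, -, hv⟩ := h1 k r C S ∅ (fun P i => x P i ⬝ᵥ y) (by
      intro ρ hρ1 hρ2 hρ3
      exact hH ρ hρ1 hρ2 (fun i => hρ3 i (Set.notMem_empty i)) y)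
    exact ⟨v, s, hv⟩
  choose v' s' hvs using hA
  obtain ⟨V', β', hB⟩ : ∃ (V' : Pt k → Matrix (Fin 3) (Fin 3) k) (β' : Fin r → Fin 3 → k),
      ∀ P ∈ S, ∀ i ∈ C.through P, x P i = Matrix.vecMul (C.ℓ i) (V' P) + β' i := by
    refine ⟨fun P => Matrix.of fun b a => v' (Pi.single a 1) P b,
      fun i a => s' (Pi.single a 1) i, ?_⟩
    intro P hP i hi
    funext a
    have h := hvs (Pi.single a 1) P hP i hi
    rw [dotProduct_single, mul_one] at h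
    rw [h]
    rfl
  -- adaptation at `P₀`
  by_cases hP₀ : P₀ ∈ S
  · exact ⟨V', β', hB, fun h => absurd hP₀ h⟩
  obtain ⟨v₀, s₀, hs₀, hv₀⟩ := h1 k r C S (C.through P₀) (fun P i => x P i ⬝ᵥ P₀.rep)
    (fun ρ hρ1 hρ2 hρ3 => hH0 hP₀ ρ hρ1 hρ2 hρ3)
  obtain ⟨φ, hφ⟩ : ∃ φ : Fin 3 → k, φ ⬝ᵥ P₀.rep = 1 := by
    have h5 := P₀.rep_nonzero
    obtain ⟨a, ha⟩ := Function.ne_iff.1 h5
    refine ⟨Pi.single a (P₀.rep a)⁻¹, ?_⟩
    rw [single_dotProduct]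
    exact inv_mul_cancel₀ ha
  refine ⟨fun P => V' P + Matrix.of fun b a => (v₀ P - Matrix.mulVec (V' P) P₀.rep) b * φ a,
    fun i => β' i + (s₀ i - β' i ⬝ᵥ P₀.rep) • φ, ?_, ?_⟩
  · intro P hP i hi
    have h6 := hv₀ P hP i hi
    have h7 := hB P hP i hi
    rw [h7, add_dotProduct, ← Matrix.dotProduct_mulVec] at h6
    rw [Matrix.vecMul_add, CorB_vec, dotProduct_sub, h7]
    have h8 : C.ℓ i ⬝ᵥ v₀ P - C.ℓ i ⬝ᵥ Matrix.mulVec (V' P) P₀.rep =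
        -(s₀ i - β' i ⬝ᵥ P₀.rep) := by linear_combination -h6
    rw [h8]
    module
  · intro _ i hi
    rw [add_dotProduct, smul_dotProduct, hφ, hs₀ i hi]
    simp

end Pool.Agent.Lib.MP_4318ff_ag
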