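import Pool.Agent.Lib.MP_4318ff_ag.Spec.LR

/-!
# MP_4318ff_ag: formality over `k`
-/

set_option autoImplicit false

namespace Pool.Agent.Lib.MP_4318ff_ag

open Matrix

theorem tFmkL (h1 : PntStmt) (h2 : BasStmt) (h3 : TwoLStmt) (h4 : AvdStmt) : FmkLStmt := by
  classical
  intro k _ _ r C hC hr P₀ t ht
  obtain ⟨p1, p2, p3, p4, p5⟩ := h1 k
  obtain ⟨b1, b2, b3, b4, b5, b6⟩ := h2 k r C
  let S : Finset (Pt k) := b5.toFinset.erase P₀
  have hS : ∀ P, P ∈ S ↔ P ∈ C.M ∧ P ≠ P₀ := fun P => by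
    simp only [S, Finset.mem_erase, Set.Finite.mem_toFinset]
    exact and_comm
  obtain ⟨φ, hφ0, hφ⟩ := h4 k P₀ S (by simp [S])
  -- every line contains a point of `S`
  have hline : ∀ i, ∃ P ∈ S, i ∈ C.through P := by
    intro i
    obtain ⟨P, hP, Q, hQ, hPQ, hiP, hiQ⟩ := h3 k r C hC hr i
    by_cases h : P = P₀
    · exact ⟨Q, (hS Q).2 ⟨hQ, fun h' => hPQ (h.trans h'.symm)⟩, hiQ⟩
    · exact ⟨P, (hS P).2 ⟨hP, h⟩, hiP⟩
  -- the deformation
  obtain ⟨B, s, hBs⟩ := hC (fun i => t i • φ) (by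
    intro P hP
    by_cases h : P = P₀
    · refine ⟨0, fun i _ => ⟨?_, dotProduct_zero _⟩⟩
      rw [smul_dotProduct, h, hφ0, smul_zero, dotProduct_zero, add_zero]
    · obtain ⟨w, hw⟩ := ht P hP h
      refine ⟨(φ ⬝ᵥ w) • P.rep - (φ ⬝ᵥ P.rep) • w, fun i hi => ⟨?_, ?_⟩⟩
      · have hi' : C.ℓ i ⬝ᵥ P.rep = 0 := hi
        rw [smul_dotProduct, dotProduct_sub, dotProduct_smul, dotProduct_smul, hi', hw i hi, smul_eq_mul,
          smul_eq_mul, smul_eq_mul]
        ring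
      · rw [smul_dotProduct, dotProduct_sub, dotProduct_smul, dotProduct_smul, smul_eq_mul, smul_eq_mul,
          smul_eq_mul]
        ring)
  choose! w hw using fun P hP => ht P ((hS P).1 hP).1 ((hS P).1 hP).2
  -- `s` is constant on the lines through `P`
  have hs3 : ∀ P ∈ S, ∀ i ∈ C.through P, ∀ j ∈ C.through P, ∀ m ∈ C.through P, i ≠ j → i ≠ m →
      j ≠ m → s i = s m ∧ s j = s m := by
    intro P hP i hi j hj m hm hij him hjm
    obtain ⟨x, y, hx, hy, hxy⟩ := b2 P i j m hi hj hm hij him hjm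
    have e1 : t m = x * t i + y * t j := by
      rw [hw P hP m hm, hw P hP i hi, hw P hP j hj, hxy, add_dotProduct, smul_dotProduct,
        smul_dotProduct, smul_eq_mul, smul_eq_mul]
    have e2 := hBs m
    rw [e1, add_smul, mul_smul, mul_smul] at e2
    have e3 := hBs i
    have e4 := hBs j
    rw [e3, e4, hxy, add_vecMul, smul_vecMul, smul_vecMul] at e2
    have e5 : (x * (s i - s m)) • C.ℓ i + (y * (s j - s m)) • C.ℓ j = 0 := by
      have : (x * (s i - s m)) • C.ℓ i + (y * (s j - s m)) • C.ℓ j =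
          (x • (C.ℓ i ᵥ* B + s i • C.ℓ i) + y • (C.ℓ j ᵥ* B + s j • C.ℓ j)) -
          (x • C.ℓ i ᵥ* B + y • C.ℓ j ᵥ* B + s m • (x • C.ℓ i + y • C.ℓ j)) := by
        module
      rw [this, e2, sub_self]
    obtain ⟨f1, f2⟩ := LinearIndependent.pair_iff.1 (C.indep i j hij) _ _ e5
    exact ⟨sub_eq_zero.1 ((mul_eq_zero.1 f1).resolve_left hx),
      sub_eq_zero.1 ((mul_eq_zero.1 f2).resolve_left hy)⟩
  have hs2 : ∀ P ∈ S, ∀ i ∈ C.through P, ∀ j ∈ C.through P, s i = s j := by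
    intro P hP i hi j hj
    by_cases hij : i = j
    · rw [hij]
    obtain ⟨m, hm, hmi, hmj⟩ := b4 P ((hS P).1 hP).1 i j
    obtain ⟨f1, f2⟩ := hs3 P hP i hi j hj m hm hij (Ne.symm hmi) (Ne.symm hmj)
    rw [f1, f2]
  -- two lines through a point
  have htwo : ∀ P ∈ S, ∃ i ∈ C.through P, ∃ j ∈ C.through P, i ≠ j := by
    intro P hP
    obtain ⟨i, hi, j, hj, m, hm, hij, -, -⟩ := b3 P ((hS P).1 hP).1
    exact ⟨i, hi, j, hj, hij⟩
  -- all forms vanishing at `P`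
  have hall : ∀ P ∈ S, ∀ i ∈ C.through P, ∀ c : Fin 3 → k, c ⬝ᵥ P.rep = 0 →
      (c ⬝ᵥ w P) • φ = c ᵥ* B + s i • c := by
    intro P hP i hi c hc
    obtain ⟨i1, hi1, j1, hj1, hij⟩ := htwo P hP
    obtain ⟨x, y, rfl⟩ := p2 P (C.ℓ i1) (C.ℓ j1) c (C.indep i1 j1 hij) hi1 hj1 hc
    have e3 := hBs i1
    have e4 := hBs j1
    rw [hw P hP i1 hi1, hs2 P hP i1 hi1 i hi] at e3
    rw [hw P hP j1 hj1, hs2 P hP j1 hj1 i hi] at e4
    rw [add_dotProduct, smul_dotProduct, smul_dotProduct, smul_eq_mul, smul_eq_mul, add_smul,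
      mul_smul, mul_smul, e3, e4, add_vecMul, smul_vecMul, smul_vecMul]
    module
  -- all `s` are equal
  have hsS : ∀ P ∈ S, ∀ Q ∈ S, ∀ i ∈ C.through P, ∀ j ∈ C.through Q, s i = s j := by
    intro P hP Q hQ i hi j hj
    by_cases hPQ : P = Q
    · subst hPQ
      exact hs2 P hP i hi j hj
    obtain ⟨c, hc0, hcP, hcQ, -⟩ := p3 P Q hPQ
    have e1 := hall P hP i hi c hcP
    have e2 := hall Q hQ j hj c hcQ
    have e3 : (c ⬝ᵥ w P - c ⬝ᵥ w Q) • φ = (s i - s j) • c := by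
      rw [sub_smul, e1, e2]
      module
    have e4 := congrArg (fun z => z ⬝ᵥ P.rep) e3
    simp only [smul_dotProduct, hcP, smul_eq_mul, mul_zero] at e4
    rw [(mul_eq_zero.1 e4).resolve_right (hφ P hP), zero_smul] at e3
    exact sub_eq_zero.1 ((smul_eq_zero.1 e3.symm).resolve_right hc0)
  have hsall : ∀ i j, s i = s j := by
    intro i j
    obtain ⟨P, hP, hi⟩ := hline i
    obtain ⟨Q, hQ, hj⟩ := hline j
    exact hsS P hP Q hQ i hi j hj
  obtain ⟨i₀, -⟩ : ∃ i : Fin r, True := ⟨⟨0, by omega⟩, trivial⟩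
  obtain ⟨P₁, hP₁, -⟩ := hline i₀
  have hφne : φ ≠ 0 := by
    intro h
    exact hφ P₁ hP₁ (by rw [h, zero_dotProduct])
  -- the subspace of the forms which are mapped to multiples of `φ`
  let T : (Fin 3 → k) →ₗ[k] (Fin 3 → k) := B.vecMulLinear + s i₀ • LinearMap.id
  have hT : ∀ c, T c = c ᵥ* B + s i₀ • c := fun c => rfl
  have hsub : Submodule.comap T (Submodule.span k {φ}) = ⊤ := by
    rw [eq_top_iff, ← C.span, Submodule.span_le]
    rintro _ ⟨i, rfl⟩
    change T (C.ℓ i) ∈ Submodule.span k {φ}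
    rw [hT, hsall i₀ i]
    have := hBs i
    rw [← this]
    exact Submodule.smul_mem _ _ (Submodule.mem_span_singleton_self φ)
  have hmul : ∀ c, ∃ x : k, x • φ = T c := by
    intro c
    have : c ∈ Submodule.comap T (Submodule.span k {φ}) := by rw [hsub]; trivial
    exact Submodule.mem_span_singleton.1 this
  choose v hv using fun a : Fin 3 => hmul (Pi.single a 1)
  refine ⟨v, fun i => ?_⟩
  have e1 : T (C.ℓ i) = (C.ℓ i ⬝ᵥ v) • φ := by
    have : C.ℓ i = ∑ a, C.ℓ i a • (Pi.single a 1 : Fin 3 → k) := by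
      funext b
      simp [Finset.sum_apply, Pi.single_apply]
    calc T (C.ℓ i) = T (∑ a, C.ℓ i a • (Pi.single a 1 : Fin 3 → k)) := by rw [← this]
      _ = ∑ a, C.ℓ i a • (v a • φ) := by
        rw [map_sum]
        exact Finset.sum_congr rfl fun a _ => by rw [map_smul, hv]
      _ = (C.ℓ i ⬝ᵥ v) • φ := by
        rw [dotProduct, Finset.sum_smul]
        exact Finset.sum_congr rfl fun a _ => by rw [smul_smul]
  have e2 := hBs i
  rw [hT, hsall i₀ i, ← e2] at e1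
  by_contra hne
  apply hφne
  have : (t i - C.ℓ i ⬝ᵥ v) • φ = 0 := by rw [sub_smul, e1, sub_self]
  exact (smul_eq_zero.1 this).resolve_left (sub_ne_zero.2 hne)

end Pool.Agent.Lib.MP_4318ff_ag
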