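import Pool.Agent.Lib.MP_4318ff_ag.Spec.LR

set_option autoImplicit false

namespace Pool.Agent.Lib.MP_4318ff_ag

open scoped LinearAlgebra.Projectivization

theorem tFouL (_h1 : PntStmt) (h2 : BasStmt) : FouLStmt := by
  intro k _ r C hrig Q h4 j hj
  classical
  by_contra hno
  have hQ : ∀ R ∈ C.M, j ∈ C.through R → R = Q := by
    intro R hR hjR
    by_contra hne
    exact hno ⟨R, hR, hne, hjR⟩
  obtain ⟨-, b2, -, -, -, -⟩ := h2 k r C
  -- three lines through Q different from j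
  have hfin : (C.through Q \ {j}).Finite := Set.toFinite _
  have hcard : 2 < (C.through Q \ {j}).ncard := by
    rw [Set.ncard_sdiff_singleton_of_mem hj]
    omega
  obtain ⟨i1, i2, i3, m1, m2, m3, n12, n13, n23⟩ := (Set.two_lt_ncard_iff hfin).1 hcard
  have nj1 : i1 ≠ j := m1.2
  have nj2 : i2 ≠ j := m2.2
  have nj3 : i3 ≠ j := m3.2
  -- the deformation
  obtain ⟨B, s, hB⟩ := hrig (fun i => if i = j then C.ℓ i1 else 0) (by
    intro R hR
    refine ⟨0, fun i hi => ⟨?_, dotProduct_zero _⟩⟩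
    rw [dotProduct_zero, add_zero]
    by_cases hij : i = j
    · rw [if_pos hij]
      subst hij
      rw [hQ R hR hi]
      exact m1.1
    · rw [if_neg hij, zero_dotProduct])
  have hne : ∀ i, i ≠ j → Matrix.vecMul (C.ℓ i) B = (-s i) • C.ℓ i := by
    intro i hi
    have h := hB i
    rw [if_neg hi] at h
    rw [neg_smul]
    exact eq_neg_of_add_eq_zero_left h.symm
  have hjB : C.ℓ i1 = Matrix.vecMul (C.ℓ j) B + s j • C.ℓ j := by
    have h := hB j
    rw [if_pos rfl] at h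
    exact h
  have hind : ∀ (a b : k), a • C.ℓ i1 + b • C.ℓ i2 = 0 → a = 0 ∧ b = 0 :=
    LinearIndependent.pair_iff.1 (C.indep i1 i2 n12)
  -- the eigenvalues are equal
  obtain ⟨x, y, hx, hy, e3⟩ := b2 Q i1 i2 i3 m1.1 m2.1 m3.1 n12 n13 n23
  have hs12 : s i1 = s i2 := by
    have h := hne i3 nj3
    rw [e3, Matrix.add_vecMul, Matrix.smul_vecMul, Matrix.smul_vecMul, hne i1 nj1, hne i2 nj2] at h
    have h' : (x * (s i3 - s i1)) • C.ℓ i1 + (y * (s i3 - s i2)) • C.ℓ i2 = 0 := by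
      have h5 : (x * (s i3 - s i1)) • C.ℓ i1 + (y * (s i3 - s i2)) • C.ℓ i2 =
          (x • (-s i1) • C.ℓ i1 + y • (-s i2) • C.ℓ i2) - (-s i3) • (x • C.ℓ i1 + y • C.ℓ i2) := by
        simp only [smul_smul, smul_add, mul_sub, sub_smul, neg_smul, smul_neg]
        module
      rw [h5, h, sub_self]
    obtain ⟨q1, q2⟩ := hind _ _ h'
    have q3 : s i3 - s i1 = 0 := (mul_eq_zero.1 q1).resolve_left hx
    have q4 : s i3 - s i2 = 0 := (mul_eq_zero.1 q2).resolve_left hy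
    rw [← sub_eq_zero.1 q3, ← sub_eq_zero.1 q4]
  obtain ⟨x', y', hx', hy', ej⟩ := b2 Q i1 i2 j m1.1 m2.1 hj n12 nj1 nj2
  have hjE : Matrix.vecMul (C.ℓ j) B = (-s i1) • C.ℓ j := by
    rw [ej, Matrix.add_vecMul, Matrix.smul_vecMul, Matrix.smul_vecMul, hne i1 nj1, hne i2 nj2, ← hs12]
    module
  rw [hjE, ← add_smul] at hjB
  have hc := LinearIndependent.pair_iff.1 (C.indep i1 j nj1) 1 (-(-s i1 + s j)) (by
    rw [one_smul, neg_smul, ← hjB, add_neg_cancel])
  exact one_ne_zero hc.1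

end Pool.Agent.Lib.MP_4318ff_ag
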