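import Pool.Agent.Lib.MP_4318ff_ag.Spec.LR

/-!
# MP_4318ff_ag, module L/InvZ (helper43)
-/

set_option autoImplicit false

namespace Pool.Agent.Lib.MP_4318ff_ag

open scoped LinearAlgebra.Projectivization

section invZ

variable {k : Type} [Field k] {r : ℕ} (C : Config k r) {K : Type} [Field K] [Algebra (F k) K] [Algebra k K]
  [IsScalarTower k (F k) K]

/-- The logarithmic derivative of the form `ℓ i`. -/
noncomputable def tl (Δ : Derivation k K K) (i : Fin r) : K :=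
  Δ (algebraMap (F k) K (ev (C.ℓ i))) / algebraMap (F k) K (ev (C.ℓ i))

theorem gr_ne (hEv : EvStmt) (hr : 2 ≤ r) (i : Fin r) : ev (C.ℓ i) ≠ 0 := by
  intro h
  obtain ⟨j, hj⟩ : ∃ j : Fin r, i ≠ j := by
    by_cases h : i = ⟨0, by omega⟩
    · exact ⟨⟨1, by omega⟩, by rw [h]; simp⟩
    · exact ⟨⟨0, by omega⟩, h⟩
  exact (C.indep i j hj).ne_zero 0 (((hEv k).2.2 (C.ℓ i)).1 h)

/-- The difference of two logarithmic derivatives. -/
theorem tl_sub (hne : ∀ i, ev (C.ℓ i) ≠ 0) (Δ : Derivation k K K) (i j : Fin r) :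
    tl C Δ i - tl C Δ j = Δ (algebraMap (F k) K (ev (C.ℓ i) / ev (C.ℓ j))) /
      algebraMap (F k) K (ev (C.ℓ i) / ev (C.ℓ j)) := by
  have hi : algebraMap (F k) K (ev (C.ℓ i)) ≠ 0 := (map_ne_zero _).2 (hne i)
  have hj : algebraMap (F k) K (ev (C.ℓ j)) ≠ 0 := (map_ne_zero _).2 (hne j)
  unfold tl
  rw [map_div₀, Derivation.leibniz_div]
  simp only [smul_eq_mul]
  field_simp

/-- Transcendence: a quotient of two independent forms is not algebraic; a weak form. -/
theorem gr_transc (hEv : EvStmt) (i j : Fin r) (hij : i ≠ j) (x y : k)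
    (h : algebraMap k (F k) x * (ev (C.ℓ i) / ev (C.ℓ j)) = algebraMap k (F k) y) (hj : ev (C.ℓ j) ≠ 0) : x = 0 ∧ y = 0 := by
  have h1 : ev (x • C.ℓ i + (-y) • C.ℓ j) = 0 := by
    rw [(hEv k).1, (hEv k).2.1, (hEv k).2.1]
    rw [← mul_div_assoc, div_eq_iff hj] at h
    rw [h, map_neg]
    ring
  have h2 := ((hEv k).2.2 _).1 h1
  have h3 := LinearIndependent.pair_iff.1 (C.indep i j hij) x (-y) h2
  exact ⟨h3.1, by simpa using h3.2⟩

/-- An invariant rational vector field along a pencil, regular everywhere and logarithmic at the lines, is zero. -/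
theorem gr_inv (hEv : EvStmt) (hU : UnifStmt) (hC : CurveStmt) (hConst : ConstStmt) (hBas : BasStmt) (hr : 2 ≤ r)
    (P : Pt k) (hP : P ∈ C.M) (δ : Derivation k (F k) (F k))
    (hδ : ∀ O, IsCurve O → ∀ i ∈ C.through P, ∀ j ∈ C.through P, ev (C.ℓ i) / ev (C.ℓ j) ∈ O →
      δ (ev (C.ℓ i) / ev (C.ℓ j)) / (ev (C.ℓ i) / ev (C.ℓ j)) ∈ O) :
    ∀ i ∈ C.through P, ∀ j ∈ C.through P, δ (ev (C.ℓ i) / ev (C.ℓ j)) = 0 := by
  have hne := fun i => gr_ne C hEv hr i
  -- constants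
  have hcon : ∀ i ∈ C.through P, ∀ j ∈ C.through P, ∃ c : k,
      δ (ev (C.ℓ i) / ev (C.ℓ j)) = algebraMap k (F k) c * (ev (C.ℓ i) / ev (C.ℓ j)) := by
    intro i hi j hj
    obtain ⟨c, hc⟩ := hConst k (δ (ev (C.ℓ i) / ev (C.ℓ j)) / (ev (C.ℓ i) / ev (C.ℓ j))) (by
      intro O hO
      obtain ⟨π, hπ⟩ := (hC k O hO).1
      rcases (hU k O π hπ).1 (ev (C.ℓ i) / ev (C.ℓ j)) with h | h
      · exact hδ O hO i hi j hj h
      · rw [inv_div] at h
        have h1 := O.neg_mem (hδ O hO j hj i hi h)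
        have h2 : δ (ev (C.ℓ i) / ev (C.ℓ j)) / (ev (C.ℓ i) / ev (C.ℓ j)) =
            -(δ (ev (C.ℓ j) / ev (C.ℓ i)) / (ev (C.ℓ j) / ev (C.ℓ i))) := by
          have hi' := hne i
          have hj' := hne j
          rw [Derivation.leibniz_div, Derivation.leibniz_div]
          simp only [smul_eq_mul]
          field_simp
          ring
        rw [h2]
        exact h1)
    refine ⟨c, ?_⟩
    rw [div_eq_iff (div_ne_zero (hne i) (hne j))] at hc
    exact hc
  intro i hi j hj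
  by_cases hij : i = j
  · rw [hij, div_self (hne j), Derivation.map_one_eq_zero]
  obtain ⟨m, hm, hmi, hmj⟩ := (hBas k r C).2.2.2.1 P hP i j
  obtain ⟨x, y, hx, hy, hxy⟩ := (hBas k r C).2.1 P i j m hi hj hm hij hmi.symm hmj.symm
  obtain ⟨c, hc⟩ := hcon i hi j hj
  obtain ⟨c', hc'⟩ := hcon m hm j hj
  have hm1 : ev (C.ℓ m) / ev (C.ℓ j) =
      algebraMap k (F k) x * (ev (C.ℓ i) / ev (C.ℓ j)) + algebraMap k (F k) y := by
    rw [hxy, (hEv k).1, (hEv k).2.1, (hEv k).2.1]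
    have := hne j
    field_simp
  have h1 : δ (ev (C.ℓ m) / ev (C.ℓ j)) =
      algebraMap k (F k) x * δ (ev (C.ℓ i) / ev (C.ℓ j)) := by
    rw [hm1, map_add, Derivation.map_algebraMap, add_zero, Derivation.leibniz, Derivation.map_algebraMap,
      smul_zero, add_zero, smul_eq_mul]
  rw [hc', hm1, hc] at h1
  have h2 := gr_transc C hEv i j hij (c' * x - x * c) (-(c' * y)) (by
    rw [map_sub, map_mul, map_mul, map_neg, map_mul]
    linear_combination h1) (hne j)
  have hc'0 : c' = 0 := by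
    have := neg_eq_zero.1 h2.2
    rcases mul_eq_zero.1 this with h | h
    · exact h
    · exact absurd h hy
  have hc0 : c = 0 := by
    have h3 := h2.1
    rw [hc'0, zero_mul, zero_sub, neg_eq_zero] at h3
    rcases mul_eq_zero.1 h3 with h | h
    · exact absurd h hx
    · exact h
  rw [hc, hc0, map_zero, zero_mul]


end invZ

theorem tInvZ : EvStmt → UnifStmt → CurveStmt → ChartExStmt → DescStmt → ConstStmt → BasStmt → InvZStmt := by
  intro hEv hU hC hCh hDesc hConst hBas k _ _ _ r n C K _ _ _ _ _ _ hn hroots P hP Δ hreg hEq hinv u i hi j hj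
  have hinj : Function.Injective (algebraMap (F k) K) := (algebraMap (F k) K).injective
  have hr : 2 ≤ r := by
    obtain ⟨a, -, b, -, c, -, hab, -, -⟩ := (hBas k r C).2.2.1 P hP
    have h1 : a.1 ≠ b.1 := fun h => hab (Fin.ext h)
    have h2 := a.2
    have h3 := b.2
    omega
  have hne := fun i => gr_ne C hEv hr i
  obtain ⟨d1, -⟩ := hDesc k r n C K hn hroots
  choose δ hδ hδr using fun v : Chart C => d1 (Δ v) (fun g => hinv g v)
  have hδuv : ∀ v, ∀ i ∈ C.through P, ∀ j ∈ C.through P,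
      δ v (ev (C.ℓ i) / ev (C.ℓ j)) = δ u (ev (C.ℓ i) / ev (C.ℓ j)) := by
    intro v i hi j hj
    apply hinj
    rw [← hδ, ← hδ]
    exact hEq u v _ _ hi hj
  have h0 := gr_inv C hEv hU hC hConst hBas hr P hP (δ u) (by
    intro O hO i hi j hj hij
    obtain ⟨v, hv⟩ := hCh k r C O (Or.inl hO)
    rw [← hδuv v i hi j hj]
    exact (hδr v P O (Or.inl hO) (hreg v O (Or.inl hO) hv)).2 i hi j hj hij) i hi j hj
  have h1 := tl_sub C hne (Δ u) i j
  rw [hδ, h0, map_zero, zero_div] at h1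
  exact sub_eq_zero.1 h1

end Pool.Agent.Lib.MP_4318ff_ag
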