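import Pool.Agent.Lib.MP_4318ff_ag.Spec.LR
import Pool.Agent.Lib.MP_4318ff_ag.L.InvZ

/-!
# MP_4318ff_ag, module L/Greg (helper43)
-/

set_option autoImplicit false

namespace Pool.Agent.Lib.MP_4318ff_ag

open scoped LinearAlgebra.Projectivization

section greg

variable {k : Type} [Field k] {r : ℕ} (C : Config k r) {K : Type} [Field K] [Algebra (F k) K] [Algebra k K]
  [IsScalarTower k (F k) K]

variable (K) in
/-- `ic K O` as a vector space over `k`. -/
noncomputable def icW (O : Subalgebra k (F k)) : Submodule k K where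
  carrier := ic K O
  add_mem' := fun ha hb => (ic K O).add_mem ha hb
  zero_mem' := (ic K O).zero_mem
  smul_mem' := by
    intro c x hx
    rw [Algebra.smul_def, IsScalarTower.algebraMap_apply k (F k) K]
    refine (ic K O).mul_mem ?_ hx
    exact isIntegral_algebraMap (R := O) (A := K) (x := ⟨algebraMap k (F k) c, O.algebraMap_mem c⟩)

theorem mem_icW (O : Subalgebra k (F k)) (x : K) : x ∈ icW K O ↔ x ∈ ic K O := Iff.rfl

/-- At a curve all lines but one are unit forms. -/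
theorem gr_unit (hC : CurveStmt) (hr : 2 ≤ r) (O : Subalgebra k (F k)) (hO : IsCurve O) :
    ∃ j : Fin r, ∀ i, i ≠ j → UnitForm O (C.ℓ i) := by
  by_cases h : ∀ i, UnitForm O (C.ℓ i)
  · exact ⟨⟨0, by omega⟩, fun i _ => h i⟩
  · push Not at h
    obtain ⟨j, hj⟩ := h
    refine ⟨j, fun i hi => ?_⟩
    have hli := C.indep j i hi.symm
    rcases (hC k O hO).2.2.1 (C.ℓ j) (hli.ne_zero 0) with h1 | h1
    · exact absurd h1 hj
    · exact (h1 (C.ℓ i) hli).1

/-- Regularity of `g_R` at a curve. -/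
theorem gr_curve (hC : CurveStmt) (hTau : TauStmt) (hRes : ResEStmt) (hBas : BasStmt) [Infinite k] {n : ℕ}
    (hlin : C.LinRigid) (hr : 6 ≤ r) (hn : 0 < n) (hroots : Roots K C n) (P₀ : Pt k) (S : Finset (Pt k))
    (hS1 : ∀ P ∈ S, P ∈ C.M) (hS2 : ∀ P ∈ C.M, P ≠ P₀ → P ∈ S) (O : Subalgebra k (F k)) (hO : IsCurve O)
    (Δ : Pt k → Derivation k K K) (hreg : ∀ P ∈ S, RegAt C n P O (Δ P))
    (hsol : ∀ T ∈ C.M, ∀ ρ : Pt k → Fin r → k, (∀ P, P ∉ S → ρ P = 0) → (∀ P ∈ S, C.IsRel P (ρ P)) →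
      (∀ i, i ∉ C.through T → ∑ P ∈ S, ρ P i = 0) →
      ∑ P ∈ S, ∑ i, (ρ P i * (C.ℓ i ⬝ᵥ T.rep)) • tl C (Δ P) i = 0)
    (R : Pt k → Fin r → k) (hR1 : ∀ P ∈ S, ∀ i, i ∉ C.through P → R P i = 0) (hR2 : ∀ P ∈ S, ∑ i, R P i = 0)
    (hR3 : ∀ i, ∑ P ∈ S, R P i = 0) :
    ∑ P ∈ S, ∑ i, R P i • tl C (Δ P) i ∈ ic K O := by
  classical
  obtain ⟨j, hj⟩ := gr_unit C hC (by omega) O hO
  have hex : ∀ P ∈ S, ∃ m ∈ C.through P, m ≠ j := by
    intro P hP
    obtain ⟨m, hm, hmj, -⟩ := (hBas k r C).2.2.2.1 P (hS1 P hP) j j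
    exact ⟨m, hm, hmj⟩
  haveI : Nonempty (Fin r) := ⟨⟨0, by omega⟩⟩
  choose! j0 hj0 hj0j using hex
  -- the differences
  set t' : Pt k → Fin r → K := fun P i => tl C (Δ P) i - tl C (Δ P) (j0 P) with ht'
  have hint : ∀ P ∈ S, ∀ i ∈ C.through P, i ≠ j → t' P i ∈ icW K O := by
    intro P hP i hi hij
    rw [mem_icW]
    exact (hTau k r n C K P O (Δ P) hn hroots (hreg P hP) i hi (j0 P) (hj0 P hP)
      ((hj (j0 P) (hj0j P hP)).2 (C.ℓ i))).1 ((hj i hij).2 (C.ℓ (j0 P)))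
  -- linear combinations with zero sums
  have hlc : ∀ c : Pt k → Fin r → k, (∀ P ∈ S, ∑ i, c P i = 0) →
      ∑ P ∈ S, ∑ i, c P i • tl C (Δ P) i = ∑ P ∈ S, ∑ i, c P i • t' P i := by
    intro c hc
    refine Finset.sum_congr rfl fun P hP => ?_
    simp only [ht', smul_sub, Finset.sum_sub_distrib]
    rw [← Finset.sum_smul, hc P hP, zero_smul, sub_zero]
  have hmk : ∀ c : Pt k → Fin r → k, (∀ P ∈ S, ∑ i, c P i = 0) → (∀ P ∈ S, ∀ i, i ∉ C.through P → c P i = 0) →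
      (icW K O).mkQ (∑ P ∈ S, ∑ i, c P i • tl C (Δ P) i) = ∑ P ∈ S, c P j • (icW K O).mkQ (t' P j) := by
    intro c hc hc'
    rw [hlc c hc, map_sum]
    refine Finset.sum_congr rfl fun P hP => ?_
    rw [map_sum, Finset.sum_eq_single j]
    · rw [map_smul]
    · intro i _ hij
      rw [map_smul]
      by_cases hi : i ∈ C.through P
      · have h : (icW K O).mkQ (t' P i) = 0 := by
          rw [Submodule.mkQ_apply, Submodule.Quotient.mk_eq_zero]
          exact hint P hP i hi hij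
        rw [h, smul_zero]
      · rw [hc' P hP i hi, zero_smul]
    · intro h
      exact absurd (Finset.mem_univ j) h
  have hres := hRes k r C hlin hr P₀ S hS1 hS2 (K ⧸ icW K O) j (fun P => (icW K O).mkQ (t' P j)) (by
    intro T hT ρ hρS hρ hsum
    have h1 : ∀ P ∈ S, ∑ i, ρ P i * (C.ℓ i ⬝ᵥ T.rep) = 0 := by
      intro P hP
      have h0 := congrArg (fun v : Fin 3 → k => v ⬝ᵥ T.rep) (hρ P hP).2
      simp only [zero_dotProduct, sum_dotProduct, smul_dotProduct, smul_eq_mul] at h0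
      exact h0
    have h2 : ∀ P ∈ S, ∀ i, i ∉ C.through P → ρ P i * (C.ℓ i ⬝ᵥ T.rep) = 0 := by
      intro P hP i hi
      rw [(hρ P hP).1 i hi, zero_mul]
    rw [← hmk (fun P i => ρ P i * (C.ℓ i ⬝ᵥ T.rep)) h1 h2, hsol T hT ρ hρS hρ hsum, map_zero]) R hR1 hR2 hR3
  have hfin : (icW K O).mkQ (∑ P ∈ S, ∑ i, R P i • tl C (Δ P) i) = 0 := by
    rw [hmk R hR2 hR1]
    exact hres
  rw [Submodule.mkQ_apply, Submodule.Quotient.mk_eq_zero] at hfin
  exact hfin


theorem greg_card {k : Type} [Field k] {r : ℕ} (C : Config k r) (T : Pt k) (hT : T ∈ C.M)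
    [DecidablePred (fun i => C.ℓ i ⬝ᵥ T.rep ≠ 0)] :
    (Finset.univ.filter (fun i => C.ℓ i ⬝ᵥ T.rep ≠ 0)).card + 3 ≤ r := by
  classical
  have h1 : 3 ≤ (C.through T).ncard := hT
  have h2 : (C.through T).ncard = (Finset.univ.filter (fun i => ¬ (C.ℓ i ⬝ᵥ T.rep ≠ 0))).card := by
    rw [← Set.ncard_coe_finset]
    congr 1
    ext i
    simp [Config.through]
  have h3 := Finset.card_filter_add_card_filter_not (s := (Finset.univ : Finset (Fin r)))
    (fun i => C.ℓ i ⬝ᵥ T.rep ≠ 0)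
  rw [Finset.card_univ, Fintype.card_fin] at h3
  omega

end greg

theorem tGreg : EvStmt → UnifStmt → CurveStmt → ChartExStmt → TauStmt → GlobStmt → VanStmt → BasStmt → ResEStmt →
    GregStmt := by
  classical
  intro _ _ hC hCh hTau hGlob hVan hBas hRes k _ _ _ r n C K _ _ _ _ _ hlin hr hrn hroots P₀ S hS1 hS2 D Δ hreg hEq
    q hq1 hq2 hq3 u O hO
  have : Infinite k := IsAlgClosed.instInfinite
  obtain ⟨v, hv⟩ := hCh k r C O (Or.inl hO)
  rw [hGlob k r C K S (D u v) (fun P => Δ P u) (fun P => Δ P v) q (fun P hP => hEq P hP u v) hq1 hq2 hq3]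
  have h := gr_curve C hC hTau hRes hBas hlin hr (by omega) hroots P₀ S hS1 hS2 O hO (fun P => Δ P v)
    (fun P hP => hreg P hP v O (Or.inl hO) hv) (by
      intro T hT ρ _ hrel hsum
      have h1 := hVan k r n C K T hroots hT ((show ∀ m : ℕ, m + 3 ≤ r → m + 1 < n from fun m hm => by omega) _
        (greg_card C T hT)) D S Δ hS1 hreg hEq ρ hrel (fun i hi => hsum i hi) v
      rw [← h1]
      refine Finset.sum_congr rfl fun P _ => Finset.sum_congr rfl fun i _ => ?_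
      rw [Algebra.smul_def]
      rfl) q hq1 hq2 hq3
  simp only [Algebra.smul_def] at h
  exact h

end Pool.Agent.Lib.MP_4318ff_ag
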