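import Pool.Agent.Lib.MP_4318ff_ag.Spec.LR

/-!
Module L/Gzero: the global functions are zero.
-/

set_option autoImplicit false

namespace Pool.Agent.Lib.MP_4318ff_ag

open scoped LinearAlgebra.Projectivization

private theorem Gzero_fix {k : Type} [Field k] {K : Type} [Field K] [Algebra (F k) K] [Algebra k K]
    [IsScalarTower k (F k) K] (g : K ≃ₐ[F k] K) (c : k) : g (algebraMap k K c) = algebraMap k K c := by
  rw [IsScalarTower.algebraMap_apply k (F k) K, g.commutes]

private theorem Gzero_eval {k : Type} [Field k] [CharZero k] {K : Type} [Field K] [Algebra (F k) K] [Algebra k K]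
    [IsScalarTower k (F k) K] [FiniteDimensional (F k) K] (N : Subgroup (K ≃ₐ[F k] K)) :
    ∃ (s : Finset (K ≃ₐ[F k] K)) (c : k), c * (s.card : k) = 1 ∧
      ∀ (D : Derivation k K K) (f : F k), avgD N D (algebraMap (F k) K f) =
        algebraMap k K c * ∑ g ∈ s, g (D (algebraMap (F k) K f)) := by
  classical
  refine ⟨Finset.univ.filter (fun g : K ≃ₐ[F k] K => g ∈ N),
    ((Finset.univ.filter (fun g : K ≃ₐ[F k] K => g ∈ N)).card : k)⁻¹, ?_, ?_⟩
  · apply inv_mul_cancel₀
    have : (Finset.univ.filter (fun g : K ≃ₐ[F k] K => g ∈ N)).card ≠ 0 := by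
      apply Finset.card_ne_zero_of_mem (a := 1)
      rw [Finset.mem_filter]
      exact ⟨Finset.mem_univ _, N.one_mem⟩
    exact_mod_cast this
  · intro D f
    have h1 : avgD N D = ((Finset.univ.filter (fun g : K ≃ₐ[F k] K => g ∈ N)).card : k)⁻¹ •
        ∑ g ∈ Finset.univ.filter (fun g : K ≃ₐ[F k] K => g ∈ N), conjD g D := by
      unfold avgD
      rfl
    rw [h1, Derivation.smul_apply, Algebra.smul_def]
    congr 1
    have h2 : (∑ g ∈ Finset.univ.filter (fun g : K ≃ₐ[F k] K => g ∈ N), conjD g D) (algebraMap (F k) K f) =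
        ∑ g ∈ Finset.univ.filter (fun g : K ≃ₐ[F k] K => g ∈ N), conjD g D (algebraMap (F k) K f) := by
      change Derivation.coeFnAddMonoidHom _ _ = _
      rw [map_sum, Finset.sum_apply]
      rfl
    rw [h2]
    apply Finset.sum_congr rfl
    intro g _
    change g (D (g.symm (algebraMap (F k) K f))) = _
    rw [g.symm.commutes]

theorem tGzero (hA : AvgStmt) (hR : RegModStmt) (hG : GregStmt) (hC : ConstKStmt) (hI : InvZStmt) : GzeroStmt := by
  intro k _ _ _ r n C K _ _ _ _ _ _ hL h6 hrn hRt P₀ S hS hS0 D Δ hΔ hEq hD q hq1 hq2 hq3 u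
  obtain ⟨s, c, hc, hev⟩ := Gzero_eval (k := k) (K := K) ⊤
  obtain ⟨-, -, -, -, -, a6, -, a8, -, -⟩ := hA k K
  obtain ⟨c0, hc0⟩ := hC k K _ (fun O hO => hG k r n C K hL h6 hrn hRt P₀ S hS hS0 D Δ hΔ hEq q hq1 hq2 hq3 u O hO)
  -- the averages of the fields
  have hinv : ∀ P ∈ S, ∀ i ∈ C.through P, ∀ j ∈ C.through P,
      avgD ⊤ (Δ P u) (algebraMap (F k) K (ev (C.ℓ i))) / algebraMap (F k) K (ev (C.ℓ i)) =
      avgD ⊤ (Δ P u) (algebraMap (F k) K (ev (C.ℓ j))) / algebraMap (F k) K (ev (C.ℓ j)) := by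
    intro P hP
    refine hI k r n C K (by omega) hRt P (hS P hP) (fun v => avgD ⊤ (Δ P v)) ?_ ?_ ?_ u
    · intro v O hO hvO
      obtain ⟨-, h2, -⟩ := hR k r n C K
      obtain ⟨W, hW1, hW2⟩ := h2 P O
      rw [← hW1]
      exact a8 ⊤ W (fun g _ D hD => hW2 g D hD) _ ((hW1 _).2 (hΔ P hP v O hO hvO))
    · intro v w e e' he he'
      have h1 := hEq P hP v w e e' he he'
      have h2 : avgD ⊤ (D v w) (algebraMap (F k) K (ev e / ev e')) = 0 := by
        rw [hD v w]
        rfl
      rw [hev] at h2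
      rw [hev, hev, ← sub_eq_zero, ← mul_sub, ← Finset.sum_sub_distrib]
      rw [← h2]
      congr 1
      apply Finset.sum_congr rfl
      intro g _
      have h3 : D v w (algebraMap (F k) K (ev e / ev e')) =
          Δ P w (algebraMap (F k) K (ev e / ev e')) - Δ P v (algebraMap (F k) K (ev e / ev e')) := h1
      rw [h3, map_sub]
    · intro g v
      exact a6 ⊤ _ g (Subgroup.mem_top g)
  have key : ∑ P ∈ S, ∑ i, algebraMap k K (q P i) *
      (Δ P u (algebraMap (F k) K (ev (C.ℓ i))) / algebraMap (F k) K (ev (C.ℓ i))) =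
      ∑ P ∈ S, ∑ i, algebraMap k K (q P i) *
      (avgD ⊤ (Δ P u) (algebraMap (F k) K (ev (C.ℓ i))) / algebraMap (F k) K (ev (C.ℓ i))) := by
    have h1 : ∑ g ∈ s, g (∑ P ∈ S, ∑ i, algebraMap k K (q P i) *
        (Δ P u (algebraMap (F k) K (ev (C.ℓ i))) / algebraMap (F k) K (ev (C.ℓ i)))) =
        (s.card : K) * (∑ P ∈ S, ∑ i, algebraMap k K (q P i) *
        (Δ P u (algebraMap (F k) K (ev (C.ℓ i))) / algebraMap (F k) K (ev (C.ℓ i)))) := by
      rw [hc0, ← nsmul_eq_mul, ← Finset.sum_const]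
      exact Finset.sum_congr rfl (fun g _ => Gzero_fix g c0)
    have h2 : (algebraMap k K c) * (s.card : K) = 1 := by
      have : algebraMap k K (c * (s.card : k)) = 1 := by rw [hc, map_one]
      rwa [map_mul, map_natCast] at this
    have h3 : ∑ P ∈ S, ∑ i, algebraMap k K (q P i) *
        (Δ P u (algebraMap (F k) K (ev (C.ℓ i))) / algebraMap (F k) K (ev (C.ℓ i))) =
        algebraMap k K c * ∑ g ∈ s, g (∑ P ∈ S, ∑ i, algebraMap k K (q P i) *
        (Δ P u (algebraMap (F k) K (ev (C.ℓ i))) / algebraMap (F k) K (ev (C.ℓ i)))) := by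
      rw [h1, ← mul_assoc, h2, one_mul]
    rw [h3]
    have h4 : ∀ g ∈ s, g (∑ P ∈ S, ∑ i, algebraMap k K (q P i) *
        (Δ P u (algebraMap (F k) K (ev (C.ℓ i))) / algebraMap (F k) K (ev (C.ℓ i)))) =
        ∑ P ∈ S, ∑ i, algebraMap k K (q P i) *
        (g (Δ P u (algebraMap (F k) K (ev (C.ℓ i)))) / algebraMap (F k) K (ev (C.ℓ i))) := by
      intro g _
      rw [map_sum]
      apply Finset.sum_congr rfl
      intro P _
      rw [map_sum]
      apply Finset.sum_congr rfl
      intro i _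
      rw [map_mul, map_div₀, Gzero_fix, g.commutes]
    rw [Finset.sum_congr rfl h4, Finset.sum_comm, Finset.mul_sum]
    apply Finset.sum_congr rfl
    intro P _
    rw [Finset.sum_comm, Finset.mul_sum]
    apply Finset.sum_congr rfl
    intro i _
    rw [hev, ← Finset.mul_sum, ← Finset.sum_div]
    ring
  rw [key]
  apply Finset.sum_eq_zero
  intro P hP
  by_cases hex : ∃ i, i ∈ C.through P
  · obtain ⟨i0, hi0⟩ := hex
    have h1 : ∀ i, algebraMap k K (q P i) *
        (avgD ⊤ (Δ P u) (algebraMap (F k) K (ev (C.ℓ i))) / algebraMap (F k) K (ev (C.ℓ i))) =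
        algebraMap k K (q P i) *
        (avgD ⊤ (Δ P u) (algebraMap (F k) K (ev (C.ℓ i0))) / algebraMap (F k) K (ev (C.ℓ i0))) := by
      intro i
      by_cases hi : i ∈ C.through P
      · rw [hinv P hP i hi i0 hi0]
      · rw [hq1 P hP i hi, map_zero, zero_mul, zero_mul]
    rw [Finset.sum_congr rfl (fun i _ => h1 i), ← Finset.sum_mul, ← map_sum, hq2 P hP, map_zero, zero_mul]
  · push Not at hex
    apply Finset.sum_eq_zero
    intro i _
    rw [hq1 P hP i (hex i), map_zero, zero_mul]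

end Pool.Agent.Lib.MP_4318ff_ag
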