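import Pool.Agent.Lib.MP_4318ff_ag.Spec.LR

set_option autoImplicit false

namespace Pool.Agent.Lib.MP_4318ff_ag

theorem tLinInf : LinInfStmt := by
  intro k _ r C hC β hβ
  refine hC β fun P hP => ?_
  obtain ⟨w, hw⟩ := hβ P hP
  exact ⟨w, fun i hi => (hw i hi).1⟩

end Pool.Agent.Lib.MP_4318ff_ag
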