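import Pool.Agent.Lib.MP_4318ff_ag.Spec.LR

/-!
# MP_4318ff_ag, block L, module ResE: `ResK` with values in a vector space
-/

set_option autoImplicit false

namespace Pool.Agent.Lib.MP_4318ff_ag

open scoped LinearAlgebra.Projectivization

/-- Module L/ResE. -/
theorem tResE (h1 : ResKStmt) : ResEStmt := by
  intro k _ _ r C hC hr P₀ S hSM hMS E _ _ i₁ e hsol q hq1 hq2 hq3
  rw [← Module.forall_dual_apply_eq_zero_iff k]
  intro f
  have h := h1 k r C hC hr P₀ S hSM hMS i₁ (fun P => f (e P)) (by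
    intro T hT ρ hρ1 hρ2 hρ3
    have h5 := congrArg f (hsol T hT ρ hρ1 hρ2 hρ3)
    rw [map_zero, map_sum] at h5
    refine Eq.trans ?_ h5
    refine Finset.sum_congr rfl fun P _ => ?_
    rw [map_smul, smul_eq_mul]) q hq1 hq2 hq3
  rw [← h, map_sum]
  refine Finset.sum_congr rfl fun P _ => ?_
  rw [map_smul, smul_eq_mul]

end Pool.Agent.Lib.MP_4318ff_ag
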