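import Pool.Agent.Lib.MP_4318ff_ag.Spec.LR

/-!
# MP_4318ff_ag, part L, module ResK: LEMMA RES over `k`
-/

set_option autoImplicit false

namespace Pool.Agent.Lib.MP_4318ff_ag

open scoped LinearAlgebra.Projectivization

/-- a vector with `a = 1` -/
private theorem ResK_vec {k : Type} [Field k] (a : Fin 3 → k) (ha : a ≠ 0) :
    ∃ z : Fin 3 → k, a ⬝ᵥ z = 1 := by
  obtain ⟨b, hb⟩ := Function.ne_iff.1 ha
  refine ⟨Pi.single b (a b)⁻¹, ?_⟩
  rw [dotProduct_single]
  exact mul_inv_cancel₀ hb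

private def ResK_sol {k : Type} [Field k] {r : ℕ} (C : Config k r) (S : Finset (Pt k)) (t : Pt k → Fin r → k) : Prop :=
  ∀ T ∈ C.M, ∀ ρ : Pt k → Fin r → k, (∀ P, P ∉ S → ρ P = 0) → (∀ P ∈ S, C.IsRel P (ρ P)) →
    (∀ i, i ∉ C.through T → ∑ P ∈ S, ρ P i = 0) →
    ∑ P ∈ S, ∑ i, (ρ P i * (C.ℓ i ⬝ᵥ T.rep)) * t P i = 0

private theorem ResK_base (h2 : SpnLStmt) (k : Type) [Field k] (r : ℕ) (C : Config k r) (hC : C.LinRigid) (hr : 6 ≤ r)
    (P₀ : Pt k) (S : Finset (Pt k)) (hMS : ∀ P ∈ C.M, P ≠ P₀ → P ∈ S) (t : Pt k → Fin r → k)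
    (H : ResK_sol C S t) :
    ∃ P₁ : Pt k, (∀ P ∈ C.M, P ≠ P₁ → P ∈ S) ∧
      (P₁ ∉ S → ∀ ρ : Pt k → Fin r → k, (∀ P, P ∉ S → ρ P = 0) → (∀ P ∈ S, C.IsRel P (ρ P)) →
        (∀ i, i ∉ C.through P₁ → ∑ P ∈ S, ρ P i = 0) →
        ∑ P ∈ S, ∑ i, ρ P i * ((t P i • C.ℓ i) ⬝ᵥ P₁.rep) = 0) := by
  by_cases h0 : P₀ ∈ C.M
  · refine ⟨P₀, hMS, ?_⟩
    intro _ ρ hρ1 hρ2 hρ3
    rw [← H P₀ h0 ρ hρ1 hρ2 hρ3]
    refine Finset.sum_congr rfl ?_
    intro P _
    refine Finset.sum_congr rfl ?_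
    intro i _
    rw [smul_dotProduct, smul_eq_mul]
    ring
  · have hc : (Pi.single 0 1 : Fin 3 → k) ≠ 0 := by
      intro h
      have := congrFun h 0
      simp at this
    obtain ⟨P₁, hP₁, hne, -⟩ := (h2 k r C hC hr).1 P₀ (Pi.single 0 1) hc
    refine ⟨P₁, ?_, ?_⟩
    · intro P hP _
      exact hMS P hP (fun h => h0 (h ▸ hP))
    · intro hn
      exact absurd (hMS P₁ hP₁ hne) hn

private theorem ResK_full (h2 : SpnLStmt) (k : Type) [Field k] (r : ℕ) (C : Config k r) (hC : C.LinRigid) (hr : 6 ≤ r)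
    (P₀ : Pt k) (S : Finset (Pt k)) (t : Pt k → Fin r → k) (H : ResK_sol C S t)
    (ρ : Pt k → Fin r → k) (hρ1 : ∀ P, P ∉ S → ρ P = 0) (hρ2 : ∀ P ∈ S, C.IsRel P (ρ P))
    (hρ3 : ∀ i, ∑ P ∈ S, ρ P i = 0) (y : Fin 3 → k) :
    ∑ P ∈ S, ∑ i, ρ P i * ((t P i • C.ℓ i) ⬝ᵥ y) = 0 := by
  let b : Fin 3 → k := ∑ P ∈ S, ∑ i, (ρ P i * t P i) • C.ℓ i
  have hb : ∀ z : Fin 3 → k, b ⬝ᵥ z = ∑ P ∈ S, ∑ i, ρ P i * ((t P i • C.ℓ i) ⬝ᵥ z) := by
    intro z
    rw [sum_dotProduct]
    refine Finset.sum_congr rfl ?_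
    intro P _
    rw [sum_dotProduct]
    refine Finset.sum_congr rfl ?_
    intro i _
    rw [smul_dotProduct, smul_dotProduct, smul_eq_mul, smul_eq_mul]
    ring
  have hb0 : b = 0 := by
    by_contra hne
    obtain ⟨T, hT, -, hbT⟩ := (h2 k r C hC hr).1 P₀ b hne
    apply hbT
    rw [hb, ← H T hT ρ hρ1 hρ2 (fun i _ => hρ3 i)]
    refine Finset.sum_congr rfl ?_
    intro P _
    refine Finset.sum_congr rfl ?_
    intro i _
    rw [smul_dotProduct, smul_eq_mul]
    ring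
  rw [← hb, hb0, zero_dotProduct]

/-- Module ResK. -/
theorem tResK (h2 : EigStmt) (h3 : SpnLStmt) (h4 : FmkLStmt) (h5 : CorBStmt) : ResKStmt := by
  classical
  intro k _ _ r C hC hr P₀ S hSM hMS j e hsol' R hR1 hR2 hR3
  have hlne : ∀ i, C.ℓ i ≠ 0 := by
    intro i
    have : Nontrivial (Fin r) := Fin.nontrivial_iff_two_le.2 (by omega)
    obtain ⟨m, hm⟩ := exists_ne i
    exact (C.indep i m hm.symm).ne_zero 0
  set t : Pt k → Fin r → k := fun P i => if i = j then e P else 0 with ht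
  have htj : ∀ P, t P j = e P := fun P => if_pos rfl
  have htn : ∀ P i, i ≠ j → t P i = 0 := fun P i hi => if_neg hi
  have hsol : ResK_sol C S t := by
    intro T hT ρ hρ1 hρ2 hρ3
    refine Eq.trans ?_ (hsol' T hT ρ hρ1 hρ2 hρ3)
    refine Finset.sum_congr rfl fun P _ => ?_
    rw [Finset.sum_eq_single j, htj]
    · intro i _ hi
      rw [htn P i hi, mul_zero]
    · intro hn
      exact absurd (Finset.mem_univ _) hn
  obtain ⟨P₁, hP1, hP1'⟩ := ResK_base h3 k r C hC hr P₀ S hMS t hsol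
  obtain ⟨V, β, hV, hβ⟩ := h5 k r C P₁ S (fun P i => t P i • C.ℓ i)
    (fun ρ hρ1 hρ2 hρ3 y => ResK_full h3 k r C hC hr P₀ S t hsol ρ hρ1 hρ2 hρ3 y) hP1'
  -- formality of `β i (y)` for `ℓ j (y) = 0`
  have hform : ∀ y : Fin 3 → k, C.ℓ j ⬝ᵥ y = 0 → ∃ v : Fin 3 → k, ∀ i, β i ⬝ᵥ y = C.ℓ i ⬝ᵥ v := by
    intro y hy
    refine h4 k r C hC hr P₁ (fun i => β i ⬝ᵥ y) ?_
    intro P hP hPP
    refine ⟨-Matrix.mulVec (V P) y, fun i hi => ?_⟩
    have h := hV P (hP1 P hP hPP) i hi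
    have h6 : (t P i • C.ℓ i) ⬝ᵥ y = 0 := by
      rw [smul_dotProduct]
      by_cases hij : i = j
      · rw [hij, hy, smul_zero]
      · rw [htn P i hij, zero_smul]
    have h7 : (t P i • C.ℓ i) ⬝ᵥ y = C.ℓ i ⬝ᵥ Matrix.mulVec (V P) y + β i ⬝ᵥ y := by
      have h' : t P i • C.ℓ i = Matrix.vecMul (C.ℓ i) (V P) + β i := h
      rw [h', add_dotProduct, Matrix.dotProduct_mulVec]
    rw [h6] at h7
    rw [dotProduct_neg]
    linear_combination -h7
  obtain ⟨z, hz⟩ := ResK_vec (C.ℓ j) (hlne j)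
  have hya : ∀ a : Fin 3, C.ℓ j ⬝ᵥ (Pi.single a 1 - C.ℓ j a • z) = 0 := by
    intro a
    rw [dotProduct_sub, dotProduct_smul, hz, dotProduct_single]
    simp
  choose v hv using fun a : Fin 3 => hform _ (hya a)
  set τ : Fin r → k := fun i => β i ⬝ᵥ z with hτ
  set B : Matrix (Fin 3) (Fin 3) k := Matrix.of fun b a => v a b with hB
  have hβB : ∀ i, β i = Matrix.vecMul (C.ℓ i) B + τ i • C.ℓ j := by
    intro i
    funext a
    have h := hv a i
    rw [dotProduct_sub, dotProduct_smul, dotProduct_single, mul_one] at h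
    have h6 : Matrix.vecMul (C.ℓ i) B a = C.ℓ i ⬝ᵥ v a := rfl
    rw [Pi.add_apply, Pi.smul_apply, h6, ← h, hτ, smul_eq_mul, smul_eq_mul]
    ring
  -- the exact deformation
  obtain ⟨B', s', hBs⟩ := hC (fun i => if i = j then 0 else τ i • C.ℓ j) (by
    intro P hP
    by_cases hj : j ∈ C.through P
    · have hj0 : C.ℓ j ⬝ᵥ P.rep = 0 := hj
      refine ⟨0, fun i hi => ⟨?_, dotProduct_zero _⟩⟩
      rw [dotProduct_zero, add_zero]
      by_cases hij : i = j
      · rw [if_pos hij, zero_dotProduct]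
      · rw [if_neg hij, smul_dotProduct, hj0, smul_zero]
    · have hj0 : C.ℓ j ⬝ᵥ P.rep ≠ 0 := hj
      have hine : ∀ i ∈ C.through P, i ≠ j := by
        rintro i hi rfl
        exact hj hi
      obtain ⟨w, hw⟩ : ∃ w : Fin 3 → k, ∀ i ∈ C.through P, τ i = C.ℓ i ⬝ᵥ w := by
        by_cases hPS : P ∈ S
        · refine ⟨-(C.ℓ j ⬝ᵥ P.rep)⁻¹ • Matrix.mulVec (V P + B) P.rep, fun i hi => ?_⟩
          have h := hV P hPS i hi
          have h' : t P i • C.ℓ i = Matrix.vecMul (C.ℓ i) (V P) + β i := h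
          rw [htn P i (hine i hi), zero_smul, hβB i, ← add_assoc, ← Matrix.vecMul_add] at h'
          have h6 := congrArg (fun x => x ⬝ᵥ P.rep) h'
          simp only [zero_dotProduct, add_dotProduct, smul_dotProduct, smul_eq_mul] at h6
          rw [← Matrix.dotProduct_mulVec] at h6
          rw [dotProduct_smul, smul_eq_mul]
          field_simp
          linear_combination -h6
        · have hPP : P = P₁ := by
            by_contra hne
            exact hPS (hP1 P hP hne)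
          refine ⟨-(C.ℓ j ⬝ᵥ P.rep)⁻¹ • Matrix.mulVec B P.rep, fun i hi => ?_⟩
          have h6 : β i ⬝ᵥ P.rep = 0 := by
            rw [hPP] at hPS hi ⊢
            exact hβ hPS i hi
          rw [hβB i, add_dotProduct, smul_dotProduct, smul_eq_mul, ← Matrix.dotProduct_mulVec] at h6
          rw [dotProduct_smul, smul_eq_mul]
          field_simp
          linear_combination h6
      refine ⟨(C.ℓ j ⬝ᵥ w) • P.rep - (C.ℓ j ⬝ᵥ P.rep) • w, fun i hi => ?_⟩
      have hi0 : C.ℓ i ⬝ᵥ P.rep = 0 := hi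
      rw [if_neg (hine i hi), smul_dotProduct, smul_dotProduct, dotProduct_sub, dotProduct_sub, dotProduct_smul,
        dotProduct_smul, dotProduct_smul, dotProduct_smul, hi0, hw i hi]
      simp only [smul_eq_mul]
      constructor <;> ring)
  -- the result
  have key : ∀ i, β i = Matrix.vecMul (C.ℓ i) (B + B') + (if i = j then τ j + s' j else s' i) • C.ℓ i := by
    intro i
    have h := hBs i
    rw [hβB i, Matrix.vecMul_add]
    by_cases hij : i = j
    · subst hij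
      rw [if_pos rfl]
      simp only [if_true] at h
      rw [add_smul, add_comm (τ i • C.ℓ i), ← add_assoc, add_assoc (Matrix.vecMul (C.ℓ i) B), ← h, add_zero]
    · rw [if_neg hij]
      simp only [if_neg hij] at h
      rw [h, add_assoc]
  set s : Fin r → k := fun i => if i = j then τ j + s' j else s' i with hs
  have hE : ∀ P ∈ S, ∀ i ∈ C.through P, ∀ m ∈ C.through P, t P i - s i = t P m - s m := by
    intro P hP i hi m hm
    refine (h2 k r C P (hSM P hP) (V P + (B + B')) (fun i => t P i - s i) (fun i hi => ?_)).1 i hi m hm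
    have h := hV P hP i hi
    have h' : t P i • C.ℓ i = Matrix.vecMul (C.ℓ i) (V P) + β i := h
    rw [sub_smul, h', key i, Matrix.vecMul_add]
    abel
  have hfin : ∀ P ∈ S, ∑ i, R P i * t P i = ∑ i, R P i * s i := by
    intro P hP
    by_cases hne : (C.through P).Nonempty
    · obtain ⟨m, hm⟩ := hne
      have h6 : ∀ i, R P i * t P i = R P i * s i + R P i * (t P m - s m) := by
        intro i
        by_cases hi : i ∈ C.through P
        · rw [← hE P hP i hi m hm]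
          ring
        · rw [hR1 P hP i hi]
          ring
      rw [Finset.sum_congr rfl fun i _ => h6 i, Finset.sum_add_distrib, ← Finset.sum_mul, hR2 P hP, zero_mul,
        add_zero]
    · refine Finset.sum_congr rfl fun i _ => ?_
      have hi : i ∉ C.through P := fun hi => hne ⟨i, hi⟩
      rw [hR1 P hP i hi, zero_mul, zero_mul]
  have h8 : ∀ P ∈ S, R P j * e P = ∑ i, R P i * t P i := by
    intro P _
    rw [Finset.sum_eq_single j, htj]
    · intro i _ hi
      rw [htn P i hi, mul_zero]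
    · intro hn
      exact absurd (Finset.mem_univ _) hn
  rw [Finset.sum_congr rfl fun P hP => (h8 P hP).trans (hfin P hP), Finset.sum_comm]
  refine Finset.sum_eq_zero fun i _ => ?_
  rw [← Finset.sum_mul, hR3 i, zero_mul]

end Pool.Agent.Lib.MP_4318ff_ag
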