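import Pool.Agent.Lib.MP_4318ff_ag.Spec.LR

/-!
MP_4318ff_ag, part L, module VecL: one vector field for all pencils.
-/

set_option autoImplicit false

namespace Pool.Agent.Lib.MP_4318ff_ag

open scoped LinearAlgebra.Projectivization

private lemma vecL_dotE {k : Type} [Field k] {K : Type} [Field K] [Algebra (F k) K] [Algebra k K]
    [IsScalarTower k (F k) K] (Δ : Derivation k K K) (c : Fin 3 → k) :
    dotE c (fun j => Δ (algebraMap (F k) K (gen k j))) = Δ (algebraMap (F k) K (ev c)) := by
  unfold dotE ev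
  rw [map_sum, map_sum]
  refine Finset.sum_congr rfl fun i _ => ?_
  rw [map_mul, ← IsScalarTower.algebraMap_apply, ← Algebra.smul_def, Derivation.map_smul]

private lemma vecL_ne {k : Type} [Field k] {r : ℕ} (C : Config k r) (hr : 6 ≤ r) (i : Fin r) :
    C.ℓ i ≠ 0 := by
  obtain ⟨j, hj⟩ : ∃ j : Fin r, i ≠ j := by
    by_cases h : i = ⟨0, by omega⟩
    · exact ⟨⟨1, by omega⟩, by rw [h]; simp⟩
    · exact ⟨⟨0, by omega⟩, h⟩
  exact (C.indep i j hj).ne_zero 0

theorem tVecL : EvStmt → GzeroStmt → IncStmt → LA3LStmt → DerVStmt → PenStmt → VecLStmt := by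
  classical
  intro hEv hG hInc hLA3 hDerV hPen k _ _ _ r n C K _ _ _ _ _ _ hR hr hrn hroots P₀ S hS1 hS2 D Δ hreg heq havg
  have hne : ∀ i, algebraMap (F k) K (ev (C.ℓ i)) ≠ 0 := by
    intro i h
    have h1 : ev (C.ℓ i) = 0 := (map_eq_zero (algebraMap (F k) K)).1 h
    exact vecL_ne C hr i (((hEv k).2.2 (C.ℓ i)).1 h1)
  have key : ∀ u : Chart C, ∃ E : Derivation k K K, ∀ P ∈ S, EqOn P E (Δ P u) := by
    intro u
    obtain ⟨s, a, hsa⟩ := hInc k r C S K
      (fun P i => Δ P u (algebraMap (F k) K (ev (C.ℓ i))) / algebraMap (F k) K (ev (C.ℓ i)))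
      (by
        intro q _ hq1 hq2 hq3
        have h1 := hG k r n C K hR hr hrn hroots P₀ S hS1 hS2 D Δ hreg heq havg q hq1 hq2 hq3 u
        rw [← h1]
        refine Finset.sum_congr rfl fun P _ => Finset.sum_congr rfl fun i _ => ?_
        rw [Algebra.smul_def])
    obtain ⟨v, hv⟩ := hLA3 k r C hR hr P₀ K (fun i => s i * algebraMap (F k) K (ev (C.ℓ i)))
      (by
        intro P hP hne0
        refine ⟨fun j => Δ P u (algebraMap (F k) K (gen k j)) - a P * algebraMap (F k) K (gen k j), ?_⟩
        intro i hi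
        have h2 := hsa P (hS2 P hP hne0) i hi
        have h3 : dotE (C.ℓ i) (fun j => Δ P u (algebraMap (F k) K (gen k j)) -
            a P * algebraMap (F k) K (gen k j)) =
            dotE (C.ℓ i) (fun j => Δ P u (algebraMap (F k) K (gen k j))) -
            a P * algebraMap (F k) K (ev (C.ℓ i)) := by
          unfold dotE ev
          rw [map_sum, Finset.mul_sum, ← Finset.sum_sub_distrib]
          refine Finset.sum_congr rfl fun b _ => ?_
          rw [smul_sub, map_mul, ← IsScalarTower.algebraMap_apply, Algebra.smul_def, Algebra.smul_def]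
          ring
        rw [h3, vecL_dotE]
        have h4 : s i = Δ P u (algebraMap (F k) K (ev (C.ℓ i))) / algebraMap (F k) K (ev (C.ℓ i)) - a P := by
          rw [h2]; ring
        rw [h4, sub_mul, div_mul_cancel₀ _ (hne i)])
    obtain ⟨E, hE⟩ := hDerV k K v
    refine ⟨E, fun P hP => ?_⟩
    have hE2 : ∀ i, E (algebraMap (F k) K (ev (C.ℓ i))) / algebraMap (F k) K (ev (C.ℓ i)) =
        s i - v 0 := by
      intro i
      rw [div_eq_iff (hne i), hE, sub_mul]
      congr 1
      have h5 : s i * algebraMap (F k) K (ev (C.ℓ i)) = dotE (C.ℓ i) v := hv i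
      rw [h5]
      unfold dotE
      refine Finset.sum_congr rfl fun j _ => ?_
      rw [Algebra.smul_def]
    refine hPen k r C K P E (Δ P u) (hS1 P hP) ?_
    intro i hi j hj
    have h2 := hsa P hP i hi
    have h3 := hsa P hP j hj
    simp only at h2 h3 ⊢
    rw [hE2 i, hE2 j, h2, h3]
    ring
  choose E hE using key
  exact ⟨E, hE⟩

end Pool.Agent.Lib.MP_4318ff_ag
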