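import Pool.Agent.Lib.MP_4318ff_ag.Spec.LR

/-!
# MP_4318ff_ag, part L, module Inc: duality for the incidence graph
-/

set_option autoImplicit false

namespace Pool.Agent.Lib.MP_4318ff_ag

open scoped LinearAlgebra.Projectivization

section Abs

variable {k : Type} [Field k] {ι κ : Type} [Fintype ι] [Fintype κ]

open Classical in
/-- the map `(s, a) ↦ s i + a P`, zero outside of the incidences -/
private noncomputable def Inc_map (A : ι → κ → Prop) : ((κ → k) × (ι → k)) →ₗ[k] (ι × κ → k) where
  toFun y q := if A q.1 q.2 then y.1 q.2 + y.2 q.1 else 0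
  map_add' y z := by
    funext q
    by_cases h : A q.1 q.2
    · simp only [if_pos h, Pi.add_apply, Prod.fst_add, Prod.snd_add]
      ring
    · simp only [if_neg h, Pi.add_apply, add_zero]
  map_smul' c y := by
    funext q
    by_cases h : A q.1 q.2
    · simp only [if_pos h, Pi.smul_apply, Prod.smul_fst, Prod.smul_snd, RingHom.id_apply, smul_eq_mul]
      ring
    · simp only [if_neg h, Pi.smul_apply, smul_zero, RingHom.id_apply]

open Classical in
private theorem Inc_map_apply (A : ι → κ → Prop) (y : (κ → k) × (ι → k)) (q : ι × κ) :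
    Inc_map A y q = if A q.1 q.2 then y.1 q.2 + y.2 q.1 else 0 := rfl

/-- duality for the incidence graph, abstract form -/
private theorem Inc_abs (A : ι → κ → Prop) (t : ι → κ → k)
    (h : ∀ R : ι → κ → k, (∀ P i, ¬ A P i → R P i = 0) → (∀ P, ∑ i, R P i = 0) → (∀ i, ∑ P, R P i = 0) →
      ∑ P, ∑ i, R P i * t P i = 0) :
    ∃ (s : κ → k) (a : ι → k), ∀ P i, A P i → t P i = s i + a P := by
  classical
  by_cases hmem : (fun q : ι × κ => if A q.1 q.2 then t q.1 q.2 else 0) ∈ LinearMap.range (Inc_map (k := k) A)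
  · obtain ⟨y, hy⟩ := hmem
    refine ⟨y.1, y.2, fun P i hA => ?_⟩
    have h1 := congrFun hy (P, i)
    rw [Inc_map_apply] at h1
    simp only [if_pos hA] at h1
    exact h1.symm
  · exfalso
    obtain ⟨f, hf1, hf2⟩ := Submodule.exists_dual_map_eq_bot_of_notMem hmem inferInstance
    have hf3 : ∀ y, f (Inc_map A y) = 0 := by
      intro y
      have h1 : f (Inc_map A y) ∈ Submodule.map f (LinearMap.range (Inc_map (k := k) A)) :=
        Submodule.mem_map_of_mem (LinearMap.mem_range_self _ _)
      rw [hf2] at h1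
      exact (Submodule.mem_bot k).1 h1
    have hfx : ∀ x : ι × κ → k, f x = ∑ P, ∑ i, x (P, i) * f (Pi.single (P, i) 1) := by
      intro x
      rw [LinearMap.pi_apply_eq_sum_univ f x, ← Fintype.sum_prod_type']
      refine Finset.sum_congr rfl fun q _ => ?_
      rw [smul_eq_mul]
      congr 2
      funext z
      by_cases hz : q = z
      · subst hz
        simp
      · rw [if_neg hz, Pi.single_eq_of_ne (Ne.symm hz)]
    have key := h (fun P i => if A P i then f (Pi.single (P, i) 1) else 0) (fun P i hA => if_neg hA) ?_ ?_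
    · apply hf1
      rw [hfx]
      refine Eq.trans ?_ key
      refine Finset.sum_congr rfl fun P _ => Finset.sum_congr rfl fun i _ => ?_
      by_cases hA : A P i
      · simp only [if_pos hA]
        ring
      · simp only [if_neg hA, zero_mul]
    · intro P
      have h1 := hf3 (0, Pi.single P 1)
      rw [hfx, Finset.sum_eq_single P] at h1
      · refine Eq.trans ?_ h1
        refine Finset.sum_congr rfl fun i _ => ?_
        rw [Inc_map_apply]
        by_cases hA : A P i
        · simp only [if_pos hA, Pi.zero_apply, Pi.single_eq_same, zero_add, one_mul]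
        · simp only [if_neg hA, zero_mul]
      · intro Q _ hQ
        refine Finset.sum_eq_zero fun i _ => ?_
        rw [Inc_map_apply]
        simp only [Pi.zero_apply, Pi.single_eq_of_ne hQ, add_zero, ite_self, zero_mul]
      · intro hn
        exact absurd (Finset.mem_univ _) hn
    · intro i
      have h1 := hf3 (Pi.single i 1, 0)
      rw [hfx] at h1
      refine Eq.trans ?_ h1
      refine Finset.sum_congr rfl fun P _ => ?_
      rw [Finset.sum_eq_single i]
      · rw [Inc_map_apply]
        by_cases hA : A P i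
        · simp only [if_pos hA, Pi.zero_apply, Pi.single_eq_same, add_zero, one_mul]
        · simp only [if_neg hA, zero_mul]
      · intro j _ hj
        rw [Inc_map_apply]
        simp only [Pi.zero_apply, Pi.single_eq_of_ne hj, add_zero, ite_self, zero_mul]
      · intro hn
        exact absurd (Finset.mem_univ _) hn

end Abs

section ExtE

variable {k : Type} [Field k] {r : ℕ} {S : Finset (Pt k)}

open Classical in
/-- The matrix of the map `(s, a) ↦ s i + a P`, zero outside of the incidences. -/
private noncomputable def Inc_N (C : Config k r) (x : {P // P ∈ S} × Fin r) :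
    Fin r ⊕ {P // P ∈ S} → k :=
  if x.2 ∈ C.through x.1 then Sum.elim (Pi.single x.2 1) (Pi.single x.1 1) else 0

private theorem Inc_sum_in (C : Config k r) {E : Type} [AddCommGroup E] [Module k E]
    (x : {P // P ∈ S} × Fin r) (hx : x.2 ∈ C.through x.1) (y : Fin r ⊕ {P // P ∈ S} → E) :
    ∑ j, Inc_N C x j • y j = y (Sum.inl x.2) + y (Sum.inr x.1) := by
  classical
  unfold Inc_N
  rw [if_pos hx, Fintype.sum_sum_type]
  simp only [Sum.elim_inl, Sum.elim_inr]
  rw [Finset.sum_eq_single x.2, Finset.sum_eq_single x.1]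
  · rw [Pi.single_eq_same, Pi.single_eq_same, one_smul, one_smul]
  · intro b _ hb
    rw [Pi.single_eq_of_ne hb, zero_smul]
  · intro h
    exact absurd (Finset.mem_univ _) h
  · intro b _ hb
    rw [Pi.single_eq_of_ne hb, zero_smul]
  · intro h
    exact absurd (Finset.mem_univ _) h

private theorem Inc_sum_out (C : Config k r) {E : Type} [AddCommGroup E] [Module k E]
    (x : {P // P ∈ S} × Fin r) (hx : x.2 ∉ C.through x.1) (y : Fin r ⊕ {P // P ∈ S} → E) :
    ∑ j, Inc_N C x j • y j = 0 := by
  classical
  unfold Inc_N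
  rw [if_neg hx]
  simp

private theorem Inc_prod {E : Type} [AddCommGroup E] (f : Pt k → Fin r → E) :
    ∑ x : {P // P ∈ S} × Fin r, f x.1 x.2 = ∑ P ∈ S, ∑ i, f P i := by
  rw [Fintype.sum_prod_type]
  exact Finset.sum_coe_sort S fun P => ∑ i, f P i

private theorem Inc_single {E : Type} [AddCommGroup E] [Module k E] {X : Type} [Fintype X]
    [DecidableEq X] (x : X) (t : X → E) :
    ∑ z, (Pi.single x 1 : X → k) z • t z = t x := by
  rw [Finset.sum_eq_single x]
  · rw [Pi.single_eq_same, one_smul]
  · intro b _ hb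
    rw [Pi.single_eq_of_ne hb, zero_smul]
  · intro h
    exact absurd (Finset.mem_univ _) h

/-- Module Inc. -/
theorem tInc (h1 : ExlStmt) : IncStmt := by
  classical
  intro k _ r C S E _ _ t ht
  let A : Set ({P // P ∈ S} × Fin r → k) :=
    {α | ∃ R : Pt k → Fin r → k, (∀ P, P ∉ S → R P = 0) ∧ (∀ P ∈ S, ∀ i, i ∉ C.through P → R P i = 0) ∧
        (∀ P ∈ S, ∑ i, R P i = 0) ∧ (∀ i, ∑ P ∈ S, R P i = 0) ∧ α = fun x => R x.1 x.2} ∪
      {α | ∃ x : {P // P ∈ S} × Fin r, x.2 ∉ C.through x.1 ∧ α = Pi.single x 1}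
  have key := h1 k ({P // P ∈ S} × Fin r) (Fin r ⊕ {P // P ∈ S}) A (Inc_N C) (by
    intro u hu
    obtain ⟨s, a, hsa⟩ := Inc_abs (k := k) (ι := {P // P ∈ S}) (κ := Fin r)
      (fun P i => i ∈ C.through P.1) (fun P i => u (P, i)) (by
        intro R hR1 hR2 hR3
        have h3 := hu (fun x => (fun (P : Pt k) i => if h : P ∈ S then R ⟨P, h⟩ i else 0) x.1 x.2)
          (Or.inl ⟨fun P i => if h : P ∈ S then R ⟨P, h⟩ i else 0, ?_, ?_, ?_, ?_, rfl⟩)
        · rw [Fintype.sum_prod_type] at h3
          rw [← h3]
          refine Finset.sum_congr rfl fun P _ => Finset.sum_congr rfl fun i _ => ?_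
          simp only [dif_pos P.2]
        · intro P hP
          funext i
          simp only [dif_neg hP]
          rfl
        · intro P hP i hi
          simp only [dif_pos hP]
          exact hR1 ⟨P, hP⟩ i hi
        · intro P hP
          simp only [dif_pos hP]
          exact hR2 ⟨P, hP⟩
        · intro i
          rw [← hR3 i, ← Finset.sum_coe_sort]
          refine Finset.sum_congr rfl fun P _ => ?_
          simp only [dif_pos P.2])
    refine ⟨Sum.elim s a, fun x => ?_⟩
    by_cases hx : x.2 ∈ C.through x.1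
    · have h4 := Inc_sum_in (E := k) C x hx (Sum.elim s a)
      simp only [smul_eq_mul, Sum.elim_inl, Sum.elim_inr] at h4
      rw [h4]
      exact hsa x.1 x.2 hx
    · have h4 := Inc_sum_out (E := k) C x hx (Sum.elim s a)
      simp only [smul_eq_mul] at h4
      rw [h4]
      have h5 := hu (Pi.single x 1) (Or.inr ⟨x, hx, rfl⟩)
      have h6 := Inc_single (k := k) (E := k) x u
      simp only [smul_eq_mul] at h6
      rw [← h6]
      exact h5) E (fun x => if x.2 ∈ C.through x.1 then t x.1 x.2 else 0) (by
    rintro α (⟨R, hR0, hR1, hR2, hR3, rfl⟩ | ⟨x, hx, rfl⟩)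
    · refine Eq.trans ?_ (ht R hR0 hR1 hR2 hR3)
      rw [← Inc_prod (S := S) fun P i => R P i • t P i]
      refine Finset.sum_congr rfl fun x _ => ?_
      by_cases hx : x.2 ∈ C.through x.1
      · rw [if_pos hx]
      · simp only [hR1 x.1.1 x.1.2 x.2 hx, zero_smul]
    · rw [Inc_single, if_neg hx])
  obtain ⟨y, hy⟩ := key
  refine ⟨fun i => y (Sum.inl i), fun P => if h : P ∈ S then y (Sum.inr ⟨P, h⟩) else 0, ?_⟩
  intro P hP i hi
  have h4 := hy (⟨P, hP⟩, i)
  rw [Inc_sum_in C (⟨P, hP⟩, i) hi y] at h4
  simp only [if_pos hi] at h4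
  simp only [dif_pos hP]
  exact h4

end ExtE

end Pool.Agent.Lib.MP_4318ff_ag
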